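import Pool.Agent.helper80.HM.SpecC

set_option autoImplicit false

namespace Pool.Agent.HM

open Finset Pool.Agent.helper38.Neg Pool.Agent.helper55.NT
open Pool.Agent.LN (HC)

theorem HCM_pad {m n : ℕ} (h : m ≤ n) (x : Fin m → Bool) (i : Fin m) :
    (pad x : Fin n → Bool) (Fin.castLE h i) = x i := by
  unfold pad
  rw [dif_pos (show (Fin.castLE h i).val < m from i.2)]
  rfl

theorem HCM_HC (n : ℕ) (x : Fin (Nat.sqrt n * Nat.sqrt n) → Bool) :
    HC n (pad x) ↔ Pool.Agent.helper33.Mod.Clique (Nat.sqrt n) (Nat.sqrt n / 2) x := by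
  have h1 : (fun i => (pad x : Fin n → Bool) (Fin.castLE (Nat.sqrt_le n) i)) = x := by
    funext i
    exact HCM_pad (Nat.sqrt_le n) x i
  unfold HC
  rw [h1]
  exact Iff.rfl

theorem HCM (hHCB : HCB_stmt) (hPAD : PAD_stmt) (hLBF : LBF_stmt) : HCM_stmt := by
  intro e
  obtain ⟨C, hC⟩ := hHCB e
  refine ⟨C, ?_⟩
  intro n hn a t s c o ha1 hae hs hc hHC
  by_contra hcon
  obtain ⟨k, σ, hk1, hk2, hk3, hk4, hk5⟩ := hC n hn a t s ha1 hae hs (not_le.1 hcon)
  obtain ⟨C', o', hC', hval⟩ := hPAD c o (Nat.sqrt_le n) hc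
  have hsep : Separates (Nat.sqrt n) (Nat.sqrt n / 2) (fun x => C'.val x o') := by
    constructor
    · intro Q hQ
      have h1 : c.val (pad (Pool.Agent.helper33.Mod.gQ Q)) o = true :=
        (hHC _).2 ((HCM_HC n _).2 (Pool.Agent.helper33.Mod.clique_gQ hQ))
      exact (hval _).trans h1
    · intro h
      by_contra h0
      have h1 : C'.val (Pool.Agent.helper33.Mod.gH h) o' = true := by
        simpa using h0
      rw [hval] at h1
      exact Pool.Agent.helper33.Mod.not_clique_gH (hk1.trans hk2) h ((HCM_HC n _).1 ((hHC _).1 h1))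
  have h2 := hLBF C' o' ha1 hC' hsep hk2 hk3 hk4
  omega

end Pool.Agent.HM
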